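import Mathlib

namespace Pool.Agent.Results.MP_68dc86_gt.Q1

open Set Metric Topology

/-- Euclidean `n`-space. -/
abbrev E (n : ℕ) : Type := EuclideanSpace ℝ (Fin n)

/-- Shadow of the Vietoris-Rips complex of `M` at scale `β`. -/
def Sh {n : ℕ} (M : Set (E n)) (β : ℝ) : Set (E n) :=
  ⋃ (s : Finset (E n)) (_ : s.Nonempty ∧ (s : Set (E n)) ⊆ M ∧ diam (s : Set (E n)) < β),
    convexHull ℝ (s : Set (E n))

/-- Absolute neighbourhood retract. -/
def ANR (Y : Type) [TopologicalSpace Y] : Prop :=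
  ∀ (Z : Type) [TopologicalSpace Z] [TopologicalSpace.MetrizableSpace Z] (f : Y → Z),
    IsClosedEmbedding f → ∃ U ∈ 𝓝ˢ (range f), ∃ r : Z → Y, ContinuousOn r U ∧ ∀ y, r (f y) = y

def H : Set ℝ := insert 0 (range fun k : ℕ => (1 / 2 : ℝ) ^ k)

lemma Hc : IsCompact H :=
  (tendsto_pow_atTop_nhds_zero_of_lt_one (by norm_num) (by norm_num)).isCompact_insert_range

lemma Hb {h} (a : h ∈ H) : 0 ≤ h ∧ h ≤ 1 := by
  rcases a with rfl | ⟨k, rfl⟩
  · simp
  · exact ⟨by positivity, pow_le_one₀ (by norm_num) (by norm_num)⟩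

lemma Hs {h k} (a : h ∈ H) (b : k ∈ H) (c : (h - k) ^ 2 < k ^ 2 / 4) : h = k := by
  rcases b with rfl | ⟨k, rfl⟩
  · nlinarith [sq_nonneg h]
  have p : 0 < (1 / 2 : ℝ) ^ k := by positivity
  rcases a with rfl | ⟨h, rfl⟩
  · simp only at c; nlinarith
  have g {i j : ℕ} (l : i < j) : (1 / 2 : ℝ) ^ j ≤ (1 / 2) ^ i / 2 := by
    have := pow_le_pow_of_le_one (a := (1 / 2 : ℝ)) (by norm_num) (by norm_num) l
    rw [pow_succ] at this; linarith
  simp only at c ⊢
  rcases lt_trichotomy h k with l | rfl | l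
  · nlinarith [g l]
  · rfl
  · nlinarith [g l]

noncomputable def pa (h : ℝ) : E 3 := !₂[-10, 0, h]
noncomputable def pb (h : ℝ) : E 3 := !₂[10 - h ^ 2 / 160, 0, h]
noncomputable def pc : E 3 := !₂[0, 1, 0]
noncomputable def pd : E 3 := !₂[0, -18, 0]

def M : Set (E 3) := pa '' H ∪ pb '' H ∪ {pc, pd}

lemma dl (x y : E 3) : dist x y < 20 ↔ (x 0 - y 0) ^ 2 + (x 1 - y 1) ^ 2 + (x 2 - y 2) ^ 2 < 400 := by
  rw [EuclideanSpace.dist_eq, Real.sqrt_lt' (by norm_num), Fin.sum_univ_three]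
  simp [Real.dist_eq, sq_abs]; norm_num

lemma loc {p : E 3} (hp : p ∈ Sh M 20) (h0 : |p 0| < 1) (h1 : |p 1| < 1 / 2) :
    ∃ h ∈ H, p 2 = h * (1 - p 1) := by
  simp only [Sh, mem_iUnion] at hp
  obtain ⟨s, ⟨-, sub, dm⟩, hp⟩ := hp
  have D {x y} (a : x ∈ s) (b : y ∈ s) := (dl x y).1
    ((dist_le_diam_of_mem s.finite_toSet.isBounded a b).trans_lt dm)
  have L (a b c d : ℝ) (h : ∀ x ∈ s, d ≤ a * x 0 + b * x 1 + c * x 2) : d ≤ a * p 0 + b * p 1 + c * p 2 :=
    convexHull_min (t := {x : E 3 | d ≤ a * x 0 + b * x 1 + c * x 2}) h (convex_halfSpace_ge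
      ⟨fun x y => by simp; ring, fun t x => by simp; ring⟩ d) hp
  have F (h) (a : h ∈ H) (b : ∀ x ∈ s, x 2 = h * (1 - x 1)) : ∃ h ∈ H, p 2 = h * (1 - p 1) :=
    ⟨h, a, by
      have := L 0 h 1 h fun x m => by linarith [b x m]
      have := L 0 (-h) (-1) (-h) fun x m => by linarith [b x m]
      linarith⟩
  rw [abs_lt] at h0 h1
  by_cases d : pd ∈ s
  · refine F 0 (.inl rfl) fun x m => ?_
    have := D d m
    rcases sub m with (⟨h, a, rfl⟩ | ⟨h, a, rfl⟩) | rfl | rfl <;> simp [pa, pb, pc, pd] at this ⊢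
    · nlinarith [sq_nonneg h]
    · nlinarith [Hb a, sq_nonneg h]
  by_cases a : ∃ h ∈ H, pa h ∈ s
  · by_cases b : ∃ k ∈ H, pb k ∈ s
    · have e {h k} (a : h ∈ H) (b : k ∈ H) (x : pa h ∈ s) (y : pb k ∈ s) : h = k := Hs a b (by
        have := D x y
        simp [pa, pb] at this
        nlinarith [sq_nonneg (k ^ 2)])
      obtain ⟨h, a, x⟩ := a
      obtain ⟨k, b, y⟩ := b
      refine F h a fun z m => ?_
      rcases sub m with (⟨j, c, rfl⟩ | ⟨j, c, rfl⟩) | rfl | rfl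
      · simp [pa, e c b m y, e a b x y]
      · simp [pb, e a c x m]
      · simp [pc]
      · exact absurd m d
    · have := L (-1) 10 0 10 fun z m => by
        rcases sub m with (⟨j, c, rfl⟩ | ⟨j, c, rfl⟩) | rfl | rfl
        · simp [pa]
        · exact absurd ⟨j, c, m⟩ b
        · simp [pc]
        · exact absurd m d
      linarith
  · have := L 1 10 0 9 fun z m => by
      rcases sub m with (⟨j, c, rfl⟩ | ⟨j, c, rfl⟩) | rfl | rfl
      · exact absurd ⟨j, c, m⟩ a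
      · simp [pb]; nlinarith [Hb c]
      · simp [pc]; norm_num
      · exact absurd m d
    linarith

noncomputable def v (t : ℝ) : E 3 := !₂[0, 0, t]

lemma seg {x y : E 3} (a : x ∈ M) (b : y ∈ M) (c : dist x y < 20) : segment ℝ x y ⊆ Sh M 20 := by
  classical
  intro p hp
  simp only [Sh, mem_iUnion]
  exact ⟨{x, y}, ⟨by simp, by simp [insert_subset_iff, a, b], by simpa [diam_pair]⟩, by simpa⟩

lemma vm {h} (a : h ∈ H) : v h ∈ Sh M 20 := by
  rcases eq_or_lt_of_le (Hb a).1 with rfl | p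
  · refine seg (x := pc) (y := pd) (.inr (.inl rfl)) (.inr (.inr rfl)) (by simp [dl, pc, pd]; norm_num)
      ⟨18 / 19, 1 / 19, by norm_num, by norm_num, by norm_num, ?_⟩
    ext i; fin_cases i <;> simp [pc, pd, v]; norm_num
  · have q := (Hb a).2
    have w : 0 < 20 - h ^ 2 / 160 := by nlinarith
    refine seg (.inl (.inl ⟨h, a, rfl⟩)) (.inl (.inr ⟨h, a, rfl⟩)) (by
      simp [dl, pa, pb]; nlinarith [pow_pos p 2])
      ⟨1 - 10 / (20 - h ^ 2 / 160), 10 / (20 - h ^ 2 / 160), ?_, by positivity, by ring, ?_⟩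
    · rw [sub_nonneg, div_le_one w]; nlinarith
    · ext i; fin_cases i <;> simp [pa, pb, v]
      · have := mul_div_cancel₀ 10 w.ne'
        linarith
      · ring

theorem result : ∃ (N : ℕ) (M : Set (E N)) (β : ℝ), 1 ≤ N ∧ M.Nonempty ∧ IsCompact M ∧ 0 < β ∧
    ¬ ANR (Sh M β) := by
  have cv : Continuous v := by unfold v; fun_prop
  refine ⟨3, M, 20, by norm_num, ⟨pc, .inr (.inl rfl)⟩, ((Hc.image (by unfold pa; fun_prop)).union
    (Hc.image (by unfold pb; fun_prop))).union (toFinite _).isCompact, by norm_num, fun h => ?_⟩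
  let W : Set (E 3) := {p | |p 0| < 1 ∧ |p 1| < 1 / 2}
  have oW : IsOpen W := (isOpen_lt (f := fun p : E 3 => |p 0|) (by fun_prop) continuous_const).inter
    (isOpen_lt (f := fun p : E 3 => |p 1|) (by fun_prop) continuous_const)
  have cφ : ContinuousOn (fun p : E 3 => p 2 / (1 - p 1)) W :=
    ContinuousOn.div (by fun_prop) (by fun_prop) fun p m => by linarith [(abs_lt.1 m.2).2]
  have φH (p) (a : p ∈ Sh M 20) (m : p ∈ W) : p 2 / (1 - p 1) ∈ H := by
    obtain ⟨h, b, c⟩ := loc a m.1 m.2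
    rwa [c, mul_div_cancel_right₀ _ (by linarith [(abs_lt.1 m.2).2])]
  have vW (t) : v t ∈ W := by simp [W, v]
  obtain ⟨U, hU, r, cr, hr⟩ := h (Sh M 20 ∪ range v : Set (E 3)) (inclusion subset_union_left)
    ⟨.inclusion _, by
      rw [← isOpen_compl_iff, isOpen_iff_mem_nhds]
      rintro ⟨p, m⟩ n
      have n : p ∉ Sh M 20 := fun a => n ⟨⟨p, a⟩, rfl⟩
      obtain ⟨t, rfl⟩ := m.resolve_left n
      have := (cφ.isOpen_inter_preimage oW Hc.isClosed.isOpen_compl).mem_nhds (x := v t)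
        ⟨vW t, fun a => n (vm (by simpa [v] using a))⟩
      refine Filter.mem_of_superset (continuous_subtype_val.continuousAt.preimage_mem_nhds this) ?_
      rintro _ ⟨a, b⟩ ⟨⟨q, c⟩, rfl⟩
      exact b (φH q c a)⟩
  let g (t : ℝ) : (Sh M 20 ∪ range v : Set (E 3)) := ⟨v t, .inr ⟨t, rfl⟩⟩
  have cg : Continuous g := cv.subtype_mk _
  have rg {t} (a : t ∈ H) : (r (g t) : E 3) = v t := congrArg Subtype.val (hr ⟨v t, vm a⟩)
  have U0 : U ∈ 𝓝 (g 0) := mem_nhdsSet_iff_forall.1 hU _ ⟨⟨v 0, vm (.inl rfl)⟩, rfl⟩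
  have c0 : ContinuousAt (fun t => (r (g t) : E 3)) 0 :=
    continuous_subtype_val.continuousAt.comp ((cr.continuousAt U0).comp cg.continuousAt)
  obtain ⟨ε, e0, he⟩ := Metric.mem_nhds_iff.1 (Filter.inter_mem (cg.continuousAt.preimage_mem_nhds U0)
    (c0.preimage_mem_nhds (oW.mem_nhds (by rw [rg (.inl rfl)]; exact vW 0))))
  obtain ⟨k, hk⟩ := exists_pow_lt_of_lt_one e0 (show (1 / 2 : ℝ) < 1 by norm_num)
  have p : 0 < (1 / 2 : ℝ) ^ k := by positivity
  have s : Icc 0 ((1 / 2 : ℝ) ^ k) ⊆ ball 0 ε := fun t m => by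
    rw [mem_ball_zero_iff, Real.norm_of_nonneg m.1]; exact m.2.trans_lt hk
  obtain ⟨t, m, e⟩ := intermediate_value_Icc p.le (cφ.comp (f := fun t => (r (g t) : E 3))
    (continuous_subtype_val.comp_continuousOn (cr.comp cg.continuousOn fun t m => (he (s m)).1))
    fun t m => (he (s m)).2) (show 3 / 4 * (1 / 2 : ℝ) ^ k ∈ _ by
      simp only [Function.comp, rg (.inl rfl), rg (.inr ⟨k, rfl⟩)]
      simp [v, -one_div]; constructor <;> linarith)
  have := φH _ (r (g t)).2 (he (s m)).2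
  have := Hs (e ▸ this : 3 / 4 * (1 / 2 : ℝ) ^ k ∈ H) (.inr ⟨k, rfl⟩) (by simp only; nlinarith)
  simp only at this; linarith

end Pool.Agent.Results.MP_68dc86_gt.Q1
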